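import Mathlib
import Pool.Agent.Helper93.Hemi.Base

/-! Packet F2w: the cubic exponential sum over `Herm_3(E)`, weak form. -/

set_option autoImplicit false
set_option linter.unusedSectionVars false

open Classical

namespace Pool.Agent.Helper40.Hemi2

open Pool.Agent.Helper93.Hemi

section

variable {k E : Type} [Field k] [Fintype k] [Field E] [Fintype E] [Algebra k E]

/-- `∑_e ψ(a nm e) = -q` for `a ≠ 0`. -/
theorem sumN (h2 : Module.finrank k E = 2) {ψ : AddChar k ℂ} (hψ : ψ ≠ 1) (a : kˣ) :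
    ∑ e : E, ψ ((a : k) * nm k E e) = -(Fintype.card k : ℂ) := by
  have hT : ∀ a : kˣ, ∑ e : E, ψ ((a : k) * nm k E e) = ∑ e : E, ψ (nm k E e) := by
    intro a
    obtain ⟨y, hy⟩ := FiniteField.norm_surjective k E (a : k)
    have hy' : nm k E y = a := hy
    have hy0 : y ≠ 0 := by
      rintro rfl
      rw [(nm_eq_zero h2).2 rfl] at hy'
      exact a.ne_zero hy'.symm
    rw [← Equiv.sum_comp (Equiv.mulLeft₀ y hy0) (fun e => ψ (nm k E e))]
    refine Finset.sum_congr rfl (fun e _ => ?_)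
    show _ = ψ (nm k E (y * e))
    rw [show nm k E (y * e) = a * nm k E e by rw [map_mul, hy']]
  have h1 : ∑ a : k, ∑ e : E, ψ (a * nm k E e) = (Fintype.card k : ℂ) := by
    rw [Finset.sum_comm]
    have : ∀ e : E, ∑ a : k, ψ (a * nm k E e) = if e = 0 then (Fintype.card k : ℂ) else 0 := by
      intro e
      rw [sum_psi hψ]
      simp only [nm_eq_zero h2]
    rw [Finset.sum_congr rfl (fun e _ => this e)]
    simp
  rw [sum_units] at h1
  have h3 : ∑ e : E, ψ (0 * nm k E e) = (Fintype.card k : ℂ) ^ 2 := by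
    simp only [zero_mul, AddChar.map_zero_eq_one]
    rw [Finset.sum_const, Finset.card_univ, card_E h2]
    simp
  rw [h3, Finset.sum_congr rfl (fun a _ => hT a), Finset.sum_const, Finset.card_univ,
    Fintype.card_units] at h1
  have hq : 1 < Fintype.card k := Fintype.one_lt_card
  have hq' : ((Fintype.card k - 1 : ℕ) : ℂ) = (Fintype.card k : ℂ) - 1 := by
    rw [Nat.cast_sub hq.le]; simp
  rw [nsmul_eq_mul, hq'] at h1
  have hq1 : (Fintype.card k : ℂ) - 1 ≠ 0 := by
    rw [sub_ne_zero]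
    exact_mod_cast hq.ne'
  rw [hT a]
  apply mul_left_cancel₀ hq1
  linear_combination h1

/-- completing the square -/
theorem sumQ (h2 : Module.finrank k E = 2) {ψ : AddChar k ℂ} (hψ : ψ ≠ 1) (s : k) (hs : s ≠ 0)
    (c : E) :
    ∑ e : E, ψ (s * nm k E e + tr k E (e * c)) = -(Fintype.card k : ℂ) * ψ (-(nm k E c / s)) := by
  have h1 := sumN h2 hψ (Units.mk0 s hs)
  set w : E := cj k E c * (algebraMap k E s)⁻¹ with hw
  have hs' : algebraMap k E s ≠ 0 := by
    intro h
    exact hs (algebraMap_inj (E := E) (by rw [h, map_zero]))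
  rw [← Equiv.sum_comp (Equiv.addRight w)] at h1
  rw [← h1, Finset.sum_mul]
  refine Finset.sum_congr rfl (fun e _ => ?_)
  rw [← AddChar.map_add_eq_mul]
  congr 1
  apply algebraMap_inj (E := E)
  simp only [map_add, map_mul, map_neg, map_div₀, nm_formula h2, tr_formula h2,
    Equiv.coe_addRight, hw, Units.val_mk0, map_inv₀, cj_algebraMap, cj_cj h2]
  field_simp
  ring

theorem sumH {ψ : AddChar k ℂ} (hψ : ψ ≠ 1) (s : k) (hs : s ≠ 0) (a b : k) :
    ∑ x : k, ∑ y : k, ψ (s * (x * y) + x * a + y * b) =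
      (Fintype.card k : ℂ) * ψ (-(a * b / s)) := by
  have h1 : ∀ x : k, ∑ y : k, ψ (s * (x * y) + x * a + y * b) =
      if x = -(b / s) then (Fintype.card k : ℂ) * ψ (-(a * b / s)) else 0 := by
    intro x
    have h2 : ∀ y : k, ψ (s * (x * y) + x * a + y * b) = ψ (x * a) * ψ (y * (s * x + b)) := by
      intro y
      rw [← AddChar.map_add_eq_mul]
      congr 1
      ring
    rw [Finset.sum_congr rfl (fun y _ => h2 y), ← Finset.mul_sum, sum_psi hψ]
    by_cases hx : x = -(b / s)
    · rw [if_pos hx, if_pos, mul_comm]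
      · congr 2
        rw [hx]; field_simp
      · rw [hx]; field_simp; ring
    · rw [if_neg hx, if_neg, mul_zero]
      intro h
      apply hx
      field_simp
      linear_combination h
  rw [Finset.sum_congr rfl (fun x _ => h1 x)]
  simp

theorem sumH0 {ψ : AddChar k ℂ} (hψ : ψ ≠ 1) (a b : k) :
    ∑ x : k, ∑ y : k, ψ (x * a + y * b) =
      (if a = 0 then (Fintype.card k : ℂ) else 0) * (if b = 0 then (Fintype.card k : ℂ) else 0) := by
  rw [← sum_psi hψ a, ← sum_psi hψ b, Finset.sum_mul]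
  refine Finset.sum_congr rfl (fun x _ => ?_)
  rw [Finset.mul_sum]
  exact Finset.sum_congr rfl (fun y _ => AddChar.map_add_eq_mul _ _ _)

/-- the double sum over `(e1, e2)` -/
theorem sumG (h2 : Module.finrank k E = 2) {ψ : AddChar k ℂ} (hψ : ψ ≠ 1) (t : k) (ht : t ≠ 0)
    (A1 A2 : k) (B : E) (hΔ : A1 * A2 - nm k E B ≠ 0) (F1 F2 : E) :
    ∑ e1 : E, ∑ e2 : E, ψ (t * (A2 * nm k E e1 + A1 * nm k E e2 + tr k E (B * e1 * e2))
      + tr k E (e1 * F1) + tr k E (e2 * F2)) = (Fintype.card k : ℂ) ^ 2 *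
      ψ ((tr k E (B * cj k E F1 * cj k E F2) - A1 * nm k E F1 - A2 * nm k E F2) /
        (t * (A1 * A2 - nm k E B))) := by
  have htE : algebraMap k E t ≠ 0 := by
    intro h
    exact ht (algebraMap_inj (E := E) (by rw [h, map_zero]))
  rw [Finset.sum_comm]
  by_cases hA : A2 = 0
  · subst hA
    have hB : B ≠ 0 := by
      rintro rfl
      apply hΔ
      rw [(nm_eq_zero h2).2 rfl]; ring
    have hcB : cj k E B ≠ 0 := fun h => hB (cj_eq_zero.1 h)
    have h1 : ∀ e2 : E, ∑ e1 : E, ψ (t * (0 * nm k E e1 + A1 * nm k E e2 + tr k E (B * e1 * e2))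
        + tr k E (e1 * F1) + tr k E (e2 * F2)) =
        if e2 = -(F1 / (algebraMap k E t * B)) then (Fintype.card k : ℂ) ^ 2 *
      ψ ((tr k E (B * cj k E F1 * cj k E F2) - A1 * nm k E F1 - 0 * nm k E F2) /
        (t * (A1 * 0 - nm k E B))) else 0 := by
      intro e2
      have h3 : ∀ e1 : E, ψ (t * (0 * nm k E e1 + A1 * nm k E e2 + tr k E (B * e1 * e2))
        + tr k E (e1 * F1) + tr k E (e2 * F2)) = ψ (t * A1 * nm k E e2 + tr k E (e2 * F2)) *
          ψ (tr k E (e1 * (algebraMap k E t * (B * e2) + F1))) := by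
        intro e1
        rw [← AddChar.map_add_eq_mul]
        congr 1
        apply algebraMap_inj (E := E)
        simp only [map_add, map_mul, map_zero, nm_formula h2, tr_formula h2, cj_algebraMap]
        ring
      rw [Finset.sum_congr rfl (fun e1 _ => h3 e1), ← Finset.mul_sum, sum_psi_tr h2 hψ]
      by_cases hx : e2 = -(F1 / (algebraMap k E t * B))
      · rw [if_pos hx, if_pos, mul_comm]
        · congr 2
          apply algebraMap_inj (E := E)
          rw [hx]
          simp only [map_add, map_sub, map_mul, map_neg, map_div₀, map_zero, nm_formula h2,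
            tr_formula h2, cj_algebraMap, cj_cj h2]
          field_simp
          ring
        · rw [hx]; field_simp; ring
      · rw [if_neg hx, if_neg, mul_zero]
        intro h
        apply hx
        field_simp
        linear_combination h
    rw [Finset.sum_congr rfl (fun e2 _ => h1 e2)]
    simp
  · have hAE : algebraMap k E A2 ≠ 0 := by
      intro h
      exact hA (algebraMap_inj (E := E) (by rw [h, map_zero]))
    have hΔE : algebraMap k E A1 * algebraMap k E A2 - B * cj k E B ≠ 0 := by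
      rw [← nm_formula h2, ← map_mul, ← map_sub]
      intro h
      exact hΔ (algebraMap_inj (E := E) (by rw [h, map_zero]))
    have h1 : ∀ e2 : E, ∑ e1 : E, ψ (t * (A2 * nm k E e1 + A1 * nm k E e2 + tr k E (B * e1 * e2))
        + tr k E (e1 * F1) + tr k E (e2 * F2)) =
        -(Fintype.card k : ℂ) * ψ (-(nm k E F1 / (t * A2))) *
        ψ ((t * (A1 * A2 - nm k E B) / A2) * nm k E e2 +
          tr k E (e2 * (F2 - cj k E F1 * B * (algebraMap k E A2)⁻¹))) := by
      intro e2
      have h3 : ∀ e1 : E, ψ (t * (A2 * nm k E e1 + A1 * nm k E e2 + tr k E (B * e1 * e2))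
        + tr k E (e1 * F1) + tr k E (e2 * F2)) = ψ (t * A1 * nm k E e2 + tr k E (e2 * F2)) *
          ψ ((t * A2) * nm k E e1 + tr k E (e1 * (algebraMap k E t * (B * e2) + F1))) := by
        intro e1
        rw [← AddChar.map_add_eq_mul]
        congr 1
        apply algebraMap_inj (E := E)
        simp only [map_add, map_mul, nm_formula h2, tr_formula h2, cj_algebraMap]
        ring
      rw [Finset.sum_congr rfl (fun e1 _ => h3 e1), ← Finset.mul_sum,
        sumQ h2 hψ _ (mul_ne_zero ht hA), mul_left_comm, ← AddChar.map_add_eq_mul,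
        mul_assoc (-(Fintype.card k : ℂ)), ← AddChar.map_add_eq_mul]
      congr 2
      apply algebraMap_inj (E := E)
      simp only [map_add, map_sub, map_mul, map_neg, map_div₀, map_inv₀, nm_formula h2,
        tr_formula h2, cj_algebraMap, cj_cj h2]
      field_simp
      ring
    rw [Finset.sum_congr rfl (fun e2 _ => h1 e2), ← Finset.mul_sum,
      sumQ h2 hψ _ (div_ne_zero (mul_ne_zero ht hΔ) hA)]
    have h4 : ψ ((tr k E (B * cj k E F1 * cj k E F2) - A1 * nm k E F1 - A2 * nm k E F2) /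
        (t * (A1 * A2 - nm k E B))) = ψ (-(nm k E F1 / (t * A2))) *
        ψ (-(nm k E (F2 - cj k E F1 * B * (algebraMap k E A2)⁻¹) /
          (t * (A1 * A2 - nm k E B) / A2))) := by
      rw [← AddChar.map_add_eq_mul]
      congr 1
      apply algebraMap_inj (E := E)
      simp only [map_add, map_sub, map_mul, map_neg, map_div₀, map_inv₀, nm_formula h2,
        tr_formula h2, cj_algebraMap, cj_cj h2]
      field_simp
      ring
    rw [h4]
    ring

/-- sums over norm fibres are Kloosterman sums -/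
theorem sumFib (h2 : Module.finrank k E = 2) {ψ : AddChar k ℂ} (hψ : ψ ≠ 1) (t : k) (ht : t ≠ 0)
    (w : E) : ∑ e : E, (if nm k E e = t then ψ (tr k E (e * w)) else 0) =
      (Fintype.card k : ℂ) * (if w = 0 then 1 else 0) - Kl ψ (t * nm k E w) := by
  have hq : (Fintype.card k : ℂ) ≠ 0 := by
    have : 0 < Fintype.card k := Fintype.card_pos
    exact_mod_cast this.ne'
  apply mul_left_cancel₀ hq
  have h1 : ∀ e : E, (Fintype.card k : ℂ) * (if nm k E e = t then ψ (tr k E (e * w)) else 0) =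
      ∑ s : k, ψ (-(s * t)) * ψ (s * nm k E e + tr k E (e * w)) := by
    intro e
    have h3 : ∀ s : k, ψ (-(s * t)) * ψ (s * nm k E e + tr k E (e * w)) =
        ψ (tr k E (e * w)) * ψ (s * (nm k E e - t)) := by
      intro s
      rw [← AddChar.map_add_eq_mul, ← AddChar.map_add_eq_mul]
      congr 1
      ring
    rw [Finset.sum_congr rfl (fun s _ => h3 s), ← Finset.mul_sum, sum_psi hψ]
    by_cases h : nm k E e = t
    · rw [if_pos h, if_pos (sub_eq_zero.2 h), mul_comm]
    · rw [if_neg h, if_neg (sub_ne_zero.2 h), mul_zero, mul_zero]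
  rw [Finset.mul_sum, Finset.sum_congr rfl (fun e _ => h1 e), Finset.sum_comm]
  have h4 : ∀ s : k, ∑ e : E, ψ (-(s * t)) * ψ (s * nm k E e + tr k E (e * w)) =
      ψ (-(s * t)) * ∑ e : E, ψ (s * nm k E e + tr k E (e * w)) := by
    intro s; rw [Finset.mul_sum]
  rw [Finset.sum_congr rfl (fun s _ => h4 s), sum_units]
  have h5 : ∑ e : E, ψ (0 * nm k E e + tr k E (e * w)) =
      (Fintype.card k : ℂ) ^ 2 * (if w = 0 then 1 else 0) := by
    simp only [zero_mul, zero_add]
    rw [sum_psi_tr h2 hψ]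
    split_ifs <;> simp
  rw [h5]
  have h6 : ∑ u : kˣ, ψ (-((u : k) * t)) * ∑ e : E, ψ ((u : k) * nm k E e + tr k E (e * w)) =
      -(Fintype.card k : ℂ) * Kl ψ (t * nm k E w) := by
    unfold Kl
    rw [Finset.mul_sum]
    let τ : kˣ := Units.mk0 t ht
    rw [← Equiv.sum_comp (Equiv.mulLeft (-τ : kˣ))
      (fun u : kˣ => -(Fintype.card k : ℂ) * ψ ((u : k) + t * nm k E w * ((u⁻¹ : kˣ) : k)))]
    refine Finset.sum_congr rfl (fun u _ => ?_)
    rw [sumQ h2 hψ _ u.ne_zero, mul_left_comm, ← AddChar.map_add_eq_mul]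
    congr 2
    rw [Equiv.coe_mulLeft]
    have e1 : ((-τ * u : kˣ) : k) = -(t * u) := by
      rw [Units.val_mul, Units.val_neg]
      show -t * (u : k) = _
      ring
    have e2 : (((-τ * u)⁻¹ : kˣ) : k) = -(t * (u : k))⁻¹ := by
      rw [Units.val_inv_eq_inv_val, e1, inv_neg]
    rw [e1, e2]
    have hu := u.ne_zero
    field_simp
  rw [h6]
  simp only [zero_mul, neg_zero, AddChar.map_zero_eq_one]
  ring

/-- regrouping the sum over `Herm_3(E)` -/
theorem sum_split (f : (k × k × k) × (E × E × E) → ℂ) :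
    ∑ h, f h = ∑ d0 : k, ∑ e1 : E, ∑ e2 : E, ∑ d1 : k, ∑ d2 : k, ∑ e0 : E,
      f ((d0, d1, d2), (e0, e1, e2)) := by
  let g : k × E × E × k × k × E → (k × k × k) × (E × E × E) :=
    fun p => ((p.1, p.2.2.2.1, p.2.2.2.2.1), (p.2.2.2.2.2, p.2.1, p.2.2.1))
  let g' : (k × k × k) × (E × E × E) → k × E × E × k × k × E :=
    fun p => (p.1.1, p.2.2.1, p.2.2.2, p.1.2.1, p.1.2.2, p.2.1)
  let e : k × E × E × k × k × E ≃ (k × k × k) × (E × E × E) :=
    ⟨g, g', fun _ => rfl, fun _ => rfl⟩
  rw [← Equiv.sum_comp e f]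
  simp only [Fintype.sum_prod_type]
  rfl

theorem inner_ne (h2 : Module.finrank k E = 2) {ψ : AddChar k ℂ} (hψ : ψ ≠ 1) (s : k) (hs : s ≠ 0)
    (g a b : k) (c : E) :
    ∑ d1 : k, ∑ d2 : k, ∑ e0 : E,
      ψ (g + (s * (d1 * d2) + d1 * a + d2 * b) + (-s * nm k E e0 + tr k E (e0 * c))) =
      -(Fintype.card k : ℂ) ^ 2 * ψ (g + (nm k E c - a * b) / s) := by
  have h1 : ∀ d1 d2 : k, ∑ e0 : E,
      ψ (g + (s * (d1 * d2) + d1 * a + d2 * b) + (-s * nm k E e0 + tr k E (e0 * c))) =
      ψ (s * (d1 * d2) + d1 * a + d2 * b) * (ψ g *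
        (-(Fintype.card k : ℂ) * ψ (nm k E c / s))) := by
    intro d1 d2
    have h3 := sumQ h2 hψ (-s) (neg_ne_zero.2 hs) c
    rw [div_neg, neg_neg] at h3
    rw [← h3, Finset.mul_sum, Finset.mul_sum]
    refine Finset.sum_congr rfl (fun e _ => ?_)
    rw [← AddChar.map_add_eq_mul, ← AddChar.map_add_eq_mul]
    congr 1
    ring
  simp only [h1]
  simp only [← Finset.sum_mul]
  rw [sumH hψ s hs, show g + (nm k E c - a * b) / s = g + nm k E c / s + -(a * b / s) by ring,
    AddChar.map_add_eq_mul, AddChar.map_add_eq_mul]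
  ring

theorem inner_zero (h2 : Module.finrank k E = 2) {ψ : AddChar k ℂ} (hψ : ψ ≠ 1)
    (g a b : k) (c : E) :
    ∑ d1 : k, ∑ d2 : k, ∑ e0 : E,
      ψ (g + (0 * (d1 * d2) + d1 * a + d2 * b) + (-0 * nm k E e0 + tr k E (e0 * c))) =
      if a = 0 ∧ b = 0 ∧ c = 0 then (Fintype.card k : ℂ) ^ 4 * ψ g else 0 := by
  have h1 : ∀ d1 d2 : k, ∑ e0 : E,
      ψ (g + (0 * (d1 * d2) + d1 * a + d2 * b) + (-0 * nm k E e0 + tr k E (e0 * c))) =
      ψ (d1 * a + d2 * b) * (ψ g * (if c = 0 then (Fintype.card k : ℂ) ^ 2 else 0)) := by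
    intro d1 d2
    rw [← sum_psi_tr h2 hψ c, Finset.mul_sum, Finset.mul_sum]
    refine Finset.sum_congr rfl (fun e _ => ?_)
    rw [← AddChar.map_add_eq_mul, ← AddChar.map_add_eq_mul]
    congr 1
    ring
  simp only [h1]
  simp only [← Finset.sum_mul]
  rw [sumH0 hψ]
  by_cases ha : a = 0 <;> by_cases hb : b = 0 <;> by_cases hc : c = 0 <;> simp [ha, hb, hc]
  ring

theorem Acase (h2 : Module.finrank k E = 2) {ψ : AddChar k ℂ} (hψ : ψ ≠ 1) (D1 D2 : k)
    (E0 E1 E2 : E) (hΔ : D1 * D2 = nm k E E0) (hD1 : D1 ≠ 0) (m : kˣ) :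
    ∑ e1 : E, ∑ e2 : E, (if D1 - (m : k) * nm k E e1 = 0 ∧ D2 - (m : k) * nm k E e2 = 0 ∧
        cj k E E0 + algebraMap k E m * (e1 * e2) = 0 then
        (Fintype.card k : ℂ) ^ 4 * ψ (tr k E (e1 * cj k E E1) + tr k E (e2 * cj k E E2)) else 0) =
      (Fintype.card k : ℂ) ^ 4 * ((Fintype.card k : ℂ) *
        (if cj k E E1 - E0 * E2 * (algebraMap k E D1)⁻¹ = 0 then 1 else 0) -
        Kl ψ (-(((m⁻¹ : kˣ) : k) *
          (tr k E (E0 * E1 * E2) - D1 * nm k E E1 - D2 * nm k E E2)))) := by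
  have hm := m.ne_zero
  have hmE : algebraMap k E (m : k) ≠ 0 := by
    intro h
    exact hm (algebraMap_inj (E := E) (by rw [h, map_zero]))
  have hDE : algebraMap k E D1 ≠ 0 := by
    intro h
    exact hD1 (algebraMap_inj (E := E) (by rw [h, map_zero]))
  have hΔE : algebraMap k E D1 * algebraMap k E D2 = E0 * cj k E E0 := by
    rw [← map_mul, hΔ, nm_formula h2]
  have h1 : ∀ e1 : E, ∑ e2 : E, (if D1 - (m : k) * nm k E e1 = 0 ∧ D2 - (m : k) * nm k E e2 = 0 ∧
        cj k E E0 + algebraMap k E m * (e1 * e2) = 0 then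
        (Fintype.card k : ℂ) ^ 4 * ψ (tr k E (e1 * cj k E E1) + tr k E (e2 * cj k E E2)) else 0) =
      (Fintype.card k : ℂ) ^ 4 * (if nm k E e1 = D1 / m then
        ψ (tr k E (e1 * (cj k E E1 - E0 * E2 * (algebraMap k E D1)⁻¹))) else 0) := by
    intro e1
    by_cases h : nm k E e1 = D1 / m
    · rw [if_pos h]
      have hE : e1 * cj k E e1 * algebraMap k E m = algebraMap k E D1 := by
        rw [← nm_formula h2, h, ← map_mul]
        congr 1
        field_simp
      rw [Finset.sum_eq_single (-(cj k E E0 * cj k E e1 * (algebraMap k E D1)⁻¹))]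
      · rw [if_pos]
        · congr 2
          apply algebraMap_inj (E := E)
          simp only [map_add, map_sub, map_mul, map_neg, map_inv₀, tr_formula h2, cj_algebraMap,
            cj_cj h2]
          field_simp
          ring
        · refine ⟨?_, ?_, ?_⟩
          · rw [h]; field_simp; ring
          · apply algebraMap_inj (E := E)
            simp only [map_sub, map_mul, map_neg, map_inv₀, map_zero, nm_formula h2,
              cj_algebraMap, cj_cj h2]
            field_simp
            linear_combination (algebraMap k E D1) * hΔE - E0 * cj k E E0 * hE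
          · field_simp
            linear_combination (-cj k E E0) * hE
      · intro e2 _ hne
        rw [if_neg]
        rintro ⟨-, -, h3⟩
        apply hne
        field_simp
        linear_combination (cj k E e1) * h3 - e2 * hE
      · intro h3
        exact absurd (Finset.mem_univ _) h3
    · rw [if_neg h, mul_zero]
      refine Finset.sum_eq_zero (fun e2 _ => ?_)
      rw [if_neg]
      rintro ⟨h3, -, -⟩
      apply h
      field_simp
      linear_combination -h3
  rw [Finset.sum_congr rfl (fun e1 _ => h1 e1), ← Finset.mul_sum,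
    sumFib h2 hψ _ (div_ne_zero hD1 hm)]
  congr 3
  apply algebraMap_inj (E := E)
  simp only [map_sub, map_mul, map_neg, map_div₀, map_inv₀, nm_formula h2, tr_formula h2,
    cj_algebraMap, cj_cj h2, Units.val_inv_eq_inv_val]
  field_simp
  linear_combination (-(E2 * cj k E E2)) * hΔE

theorem f2w : GoalF2w := by
  intro k E _ _ _ _ _ h2 ψ hψ H
  obtain ⟨⟨D0, D1, D2⟩, ⟨E0, E1, E2⟩⟩ := H
  have hexp : ∀ (m d0 d1 d2 : k) (e0 e1 e2 : E),
      m * dt ((d0, d1, d2), (e0, e1, e2)) +
        pr ((d0, d1, d2), (e0, e1, e2)) ((D0, D1, D2), (E0, E1, E2)) =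
      (d0 * D0 + tr k E (e1 * cj k E E1) + tr k E (e2 * cj k E E2)) +
      ((m * d0) * (d1 * d2) + d1 * (D1 - m * nm k E e1) + d2 * (D2 - m * nm k E e2)) +
      (-(m * d0) * nm k E e0 + tr k E (e0 * (cj k E E0 + algebraMap k E m * (e1 * e2)))) := by
    intro m d0 d1 d2 e0 e1 e2
    unfold dt pr
    apply algebraMap_inj (E := E)
    simp only [map_add, map_sub, map_mul, map_neg, nm_formula h2, tr_formula h2,
      cj_algebraMap, cj_cj h2]
    ring
  set q : ℂ := (Fintype.card k : ℂ) with hq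
  set Δ : k := D1 * D2 - nm k E E0 with hΔ
  -- the main decomposition
  have hS : ∀ m : kˣ, ∑ h : (k × k × k) × (E × E × E),
      ψ ((m : k) * dt h + pr h ((D0, D1, D2), (E0, E1, E2))) =
      (∑ e1 : E, ∑ e2 : E, (if D1 - (m : k) * nm k E e1 = 0 ∧ D2 - (m : k) * nm k E e2 = 0 ∧
        cj k E E0 + algebraMap k E m * (e1 * e2) = 0 then
        q ^ 4 * ψ (tr k E (e1 * cj k E E1) + tr k E (e2 * cj k E E2)) else 0)) +
      ∑ d0 : kˣ, (-q ^ 2 * ψ ((d0 : k) * D0 - Δ / ((m : k) * d0))) *
        ∑ e1 : E, ∑ e2 : E, ψ (((d0 : k))⁻¹ * (D2 * nm k E e1 + D1 * nm k E e2 +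
          tr k E (E0 * e1 * e2)) + tr k E (e1 * cj k E E1) + tr k E (e2 * cj k E E2)) := by
    intro m
    rw [sum_split]
    simp only [hexp]
    rw [sum_units]
    congr 1
    · refine Finset.sum_congr rfl (fun e1 _ => Finset.sum_congr rfl (fun e2 _ => ?_))
      have h3 := inner_zero h2 hψ (0 * D0 + tr k E (e1 * cj k E E1) + tr k E (e2 * cj k E E2))
        (D1 - (m : k) * nm k E e1) (D2 - (m : k) * nm k E e2)
        (cj k E E0 + algebraMap k E m * (e1 * e2))
      rw [zero_mul, zero_add] at h3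
      rw [zero_mul, zero_add, mul_zero, h3]
    · refine Finset.sum_congr rfl (fun d0 _ => ?_)
      rw [Finset.mul_sum]
      refine Finset.sum_congr rfl (fun e1 _ => ?_)
      rw [Finset.mul_sum]
      refine Finset.sum_congr rfl (fun e2 _ => ?_)
      have hm := m.ne_zero
      have hd := d0.ne_zero
      rw [inner_ne h2 hψ _ (mul_ne_zero hm hd), mul_assoc (-q ^ 2), ← AddChar.map_add_eq_mul]
      congr 2
      apply algebraMap_inj (E := E)
      have hmE : algebraMap k E (m : k) ≠ 0 := by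
        intro h
        exact hm (algebraMap_inj (E := E) (by rw [h, map_zero]))
      have hdE : algebraMap k E (d0 : k) ≠ 0 := by
        intro h
        exact hd (algebraMap_inj (E := E) (by rw [h, map_zero]))
      simp only [hΔ, map_add, map_sub, map_mul, map_div₀, map_inv₀, nm_formula h2,
        tr_formula h2, cj_algebraMap, cj_cj h2]
      field_simp
      ring
  have hdt : dt ((D0, D1, D2), (E0, E1, E2)) =
      D0 * Δ + (tr k E (E0 * E1 * E2) - D1 * nm k E E1 - D2 * nm k E E2) := by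
    unfold dt
    simp only [hΔ]
    ring
  by_cases h0 : Δ = 0
  · -- the degenerate case
    set B : ℂ := ∑ d0 : kˣ, (-q ^ 2 * ψ ((d0 : k) * D0)) *
        ∑ e1 : E, ∑ e2 : E, ψ (((d0 : k))⁻¹ * (D2 * nm k E e1 + D1 * nm k E e2 +
          tr k E (E0 * e1 * e2)) + tr k E (e1 * cj k E E1) + tr k E (e2 * cj k E E2)) with hB
    have hS' : ∀ m : kˣ, ∑ h : (k × k × k) × (E × E × E),
      ψ ((m : k) * dt h + pr h ((D0, D1, D2), (E0, E1, E2))) =
      (∑ e1 : E, ∑ e2 : E, (if D1 - (m : k) * nm k E e1 = 0 ∧ D2 - (m : k) * nm k E e2 = 0 ∧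
        cj k E E0 + algebraMap k E m * (e1 * e2) = 0 then
        q ^ 4 * ψ (tr k E (e1 * cj k E E1) + tr k E (e2 * cj k E E2)) else 0)) + B := by
      intro m
      rw [hS m, hB]
      simp only [h0, zero_div, sub_zero]
    have h0' : D1 * D2 = nm k E E0 := by
      rw [hΔ] at h0
      linear_combination h0
    rw [h0, mul_zero, zero_add] at hdt
    by_cases hD1 : D1 = 0
    · by_cases hD2 : D2 = 0
      · have hE0 : E0 = 0 := by
          apply (nm_eq_zero h2).1
          rw [← h0', hD1, zero_mul]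
        refine ⟨B, fun m => ?_⟩
        have hd0 : dt ((D0, D1, D2), (E0, E1, E2)) = 0 := by
          rw [hdt, hD1, hD2, hE0]
          simp
        have hKl : Kl ψ 0 = -1 := by
          unfold Kl
          have := sum_psi_units hψ 1
          rw [if_neg one_ne_zero] at this
          simp only [mul_one] at this
          simp only [zero_mul, add_zero]
          rw [this]
          ring
        rw [hS' m, hd0, mul_zero, neg_zero, hKl]
        congr 1
        rw [Finset.sum_eq_single 0, Finset.sum_eq_single 0]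
        · rw [if_pos]
          · simp
          · simp [hD1, hD2, hE0, (nm_eq_zero h2).2 rfl]
        · intro e2 _ hne
          rw [if_neg]
          rintro ⟨-, h3, -⟩
          rw [hD2, zero_sub, neg_eq_zero, mul_eq_zero] at h3
          rcases h3 with h3 | h3
          · exact m.ne_zero h3
          · exact hne ((nm_eq_zero h2).1 h3)
        · intro h; exact absurd (Finset.mem_univ _) h
        · intro e1 _ hne
          refine Finset.sum_eq_zero (fun e2 _ => ?_)
          rw [if_neg]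
          rintro ⟨h3, -, -⟩
          rw [hD1, zero_sub, neg_eq_zero, mul_eq_zero] at h3
          rcases h3 with h3 | h3
          · exact m.ne_zero h3
          · exact hne ((nm_eq_zero h2).1 h3)
        · intro h; exact absurd (Finset.mem_univ _) h
      · refine ⟨q ^ 4 * (q *
          (if cj k E E2 - E0 * E1 * (algebraMap k E D2)⁻¹ = 0 then 1 else 0)) + B, fun m => ?_⟩
        have h3 := Acase h2 hψ D2 D1 E0 E2 E1 (by rw [mul_comm]; exact h0') hD2 m
        rw [Finset.sum_comm] at h3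
        have h4 : ∑ e1 : E, ∑ e2 : E, (if D1 - (m : k) * nm k E e1 = 0 ∧
            D2 - (m : k) * nm k E e2 = 0 ∧ cj k E E0 + algebraMap k E m * (e1 * e2) = 0 then
            q ^ 4 * ψ (tr k E (e1 * cj k E E1) + tr k E (e2 * cj k E E2)) else 0) =
            ∑ y : E, ∑ x : E, (if D2 - (m : k) * nm k E x = 0 ∧ D1 - (m : k) * nm k E y = 0 ∧
            cj k E E0 + algebraMap k E m * (x * y) = 0 then
            q ^ 4 * ψ (tr k E (x * cj k E E2) + tr k E (y * cj k E E1)) else 0) := by
          refine Finset.sum_congr rfl (fun y _ => Finset.sum_congr rfl (fun x _ => ?_))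
          rw [mul_comm y x, add_comm (tr k E (y * _))]
          refine if_congr ?_ rfl rfl
          tauto
        rw [hS' m, h4, h3, hdt]
        rw [show tr k E (E0 * E2 * E1) - D2 * nm k E E2 - D1 * nm k E E1 =
          tr k E (E0 * E1 * E2) - D1 * nm k E E1 - D2 * nm k E E2 by
            rw [mul_right_comm E0 E2 E1]; ring]
        ring
    · refine ⟨q ^ 4 * (q *
          (if cj k E E1 - E0 * E2 * (algebraMap k E D1)⁻¹ = 0 then 1 else 0)) + B, fun m => ?_⟩
      rw [hS' m, Acase h2 hψ D1 D2 E0 E1 E2 h0' hD1 m, hdt]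
      ring
  · -- the nondegenerate case
    refine ⟨0, fun m => ?_⟩
    have hA : (∑ e1 : E, ∑ e2 : E, (if D1 - (m : k) * nm k E e1 = 0 ∧
        D2 - (m : k) * nm k E e2 = 0 ∧ cj k E E0 + algebraMap k E m * (e1 * e2) = 0 then
        q ^ 4 * ψ (tr k E (e1 * cj k E E1) + tr k E (e2 * cj k E E2)) else 0)) = 0 := by
      refine Finset.sum_eq_zero (fun e1 _ => Finset.sum_eq_zero (fun e2 _ => ?_))
      rw [if_neg]
      rintro ⟨h3, h4, h5⟩
      apply h0
      have h6 : nm k E E0 = (m : k) ^ 2 * nm k E e1 * nm k E e2 := by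
        rw [← nm_cj h2 E0, show cj k E E0 = -(algebraMap k E m * (e1 * e2)) by
          linear_combination h5]
        apply algebraMap_inj (E := E)
        simp only [map_mul, map_neg, map_pow, nm_formula h2, cj_algebraMap]
        ring
      rw [hΔ, h6]
      linear_combination D2 * h3 + (m : k) * nm k E e1 * h4
    rw [hS m, hA, zero_add, add_zero]
    have hG : ∀ d0 : kˣ, ∑ e1 : E, ∑ e2 : E, ψ (((d0 : k))⁻¹ * (D2 * nm k E e1 +
        D1 * nm k E e2 + tr k E (E0 * e1 * e2)) + tr k E (e1 * cj k E E1) +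
        tr k E (e2 * cj k E E2)) = q ^ 2 * ψ ((d0 : k) * ((tr k E (E0 * E1 * E2) -
          D1 * nm k E E1 - D2 * nm k E E2) / Δ)) := by
      intro d0
      have h3 := sumG h2 hψ ((d0 : k))⁻¹ (inv_ne_zero d0.ne_zero) D1 D2 E0 h0
        (cj k E E1) (cj k E E2)
      rw [cj_cj h2, cj_cj h2, nm_cj h2, nm_cj h2] at h3
      rw [h3]
      congr 2
      have hd := d0.ne_zero
      rw [← hΔ]
      field_simp
    unfold Kl
    rw [Finset.mul_sum]
    let τ : kˣ := Units.mk0 (-(Δ / (m : k))) (neg_ne_zero.2 (div_ne_zero h0 m.ne_zero))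
    rw [← Equiv.sum_comp ((Equiv.inv kˣ).trans (Equiv.mulLeft τ)) (fun u : kˣ =>
      -q ^ 4 * ψ ((u : k) + -(((m⁻¹ : kˣ) : k) * dt ((D0, D1, D2), (E0, E1, E2))) *
        ((u⁻¹ : kˣ) : k)))]
    refine Finset.sum_congr rfl (fun d0 _ => ?_)
    rw [hG, hdt]
    have e1 : (((Equiv.inv kˣ).trans (Equiv.mulLeft τ) d0 : kˣ) : k) =
        -(Δ / (m : k)) * (d0 : k)⁻¹ := by
      simp [τ]
    have e2 : (((((Equiv.inv kˣ).trans (Equiv.mulLeft τ) d0)⁻¹ : kˣ)) : k) =
        (-(Δ / (m : k)) * (d0 : k)⁻¹)⁻¹ := by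
      rw [Units.val_inv_eq_inv_val, e1]
    rw [e1, e2]
    have hd := d0.ne_zero
    have hm := m.ne_zero
    have h7 : ∀ a b : ℂ, -q ^ 2 * a * (q ^ 2 * b) = -q ^ 4 * (a * b) := by
      intro a b; ring
    rw [h7, ← AddChar.map_add_eq_mul]
    congr 2
    rw [Units.val_inv_eq_inv_val]
    field_simp
    ring

end

end Pool.Agent.Helper40.Hemi2
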